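import Pool.Agent.Q100.CT.Stm

set_option autoImplicit false

open Set Filter Topology

namespace Pool.Agent.Q239.CT

open Pool.Agent.Q100.CT

section nrm

variable {V : Type} [NormedAddCommGroup V] [InnerProductSpace ℝ V]

/-- The norm of a long vector minus a short one. -/
theorem norm_sub_le (e y : V) (he : ‖e‖ = 1) (lam : ℝ) (hl : 0 < lam) :
    ‖lam • e - y‖ ≤ lam - inner ℝ e y + ‖y‖ ^ 2 / (2 * lam) := by
  have hi : inner ℝ e y ≤ ‖y‖ := by
    have := real_inner_le_norm e y
    rwa [he, one_mul] at this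
  have hsq : ‖lam • e - y‖ ^ 2 = lam ^ 2 - 2 * lam * inner ℝ e y + ‖y‖ ^ 2 := by
    rw [norm_sub_sq_real, norm_smul, he, inner_smul_left]
    simp
    ring
  have hdiv : ‖y‖ ^ 2 / (2 * lam) * (2 * lam) = ‖y‖ ^ 2 := by
    field_simp
  set q := ‖y‖ ^ 2 / (2 * lam) with hq
  have hq0 : 0 ≤ q := by positivity
  have hnn : 0 ≤ lam - inner ℝ e y + q := by
    have h1 : 2 * lam * ‖y‖ ≤ 2 * lam * (lam + q) := by
      nlinarith [sq_nonneg (lam - ‖y‖), sq_nonneg ‖y‖, sq_nonneg lam]
    have h2 : ‖y‖ ≤ lam + q := le_of_mul_le_mul_left h1 (by positivity)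
    linarith
  apply le_of_sq_le_sq _ hnn
  rw [hsq]
  nlinarith [sq_nonneg (inner ℝ e y - q)]

/-- The same with a multiple `c w` of bounded coefficient and `lam` large. -/
theorem norm_sub_le' (e w : V) (he : ‖e‖ = 1) (lam c R : ℝ) (hR : 0 < R) (hl : R ≤ 4 * lam)
    (hc : c ^ 2 ≤ 4) :
    ‖lam • e - c • w‖ ≤ lam - c * inner ℝ e w + 8 * ‖w‖ ^ 2 / R := by
  have h := norm_sub_le e (c • w) he lam (by linarith)
  rw [inner_smul_right, norm_smul, mul_pow, Real.norm_eq_abs, sq_abs] at h
  refine h.trans ?_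
  have h1 : c ^ 2 * ‖w‖ ^ 2 / (2 * lam) ≤ 8 * ‖w‖ ^ 2 / R := by
    rw [div_le_div_iff₀ (by linarith) hR]
    have h2 : c ^ 2 * ‖w‖ ^ 2 * R ≤ 4 * ‖w‖ ^ 2 * R := by gcongr
    have h3 : 4 * ‖w‖ ^ 2 * R ≤ 4 * ‖w‖ ^ 2 * (4 * lam) := by gcongr
    linarith
  linarith

end nrm

variable {V Z : Type} [NormedAddCommGroup V] [InnerProductSpace ℝ V]
    [NormedAddCommGroup Z] [NormedSpace ℝ Z]

/-- The two horizontal steps from the line to the point. -/
theorem two_steps (B : Form V Z) (e w : V) (t T : ℝ) (hT : T ≠ t) :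
    mul B (mul B (T • e, 0)
      (((-(T / 2 + t) / (T - t)) • w - (T / 2) • e), 0))
      ((t - T / 2) • e - ((-(T / 2 + t) / (T - t)) - 1) • w, 0) = mul B (w, 0) (t • e, 0) := by
  have hne : T - t ≠ 0 := sub_ne_zero.mpr hT
  set β := -(T / 2 + t) / (T - t) with hβ
  have hb : β * (T - t) = -(T / 2 + t) := by rw [hβ]; field_simp
  apply Prod.ext
  · simp only [mul_fst]
    module
  · simp only [mul_snd, mul_fst, map_sub, map_add, map_smul, LinearMap.sub_apply,
      LinearMap.add_apply, LinearMap.smul_apply, B.alt, smul_zero, sub_zero, zero_sub, add_zero,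
      zero_add, smul_smul, smul_sub, smul_add, smul_neg]
    rw [b_neg B w e]
    simp only [smul_neg]
    have h0 : (1 / 2 : ℝ) * (T * β) + 1 / 2 * (T / 2 - β * t) = - (1 / 2 * t) := by
      linear_combination (1 / 2 : ℝ) * hb
    have h1 : -((1 / 2 * t) • B.b e w) = ((1 / 2 : ℝ) * (T * β) + 1 / 2 * (T / 2 - β * t)) • B.b e w := by
      rw [h0, neg_smul]
    rw [h1]
    module

theorem line_one (B : Form V Z) (u : V × Z → ℝ) (e : V) (s : ℝ) (he : ‖e‖ = 1) (hs : 0 ≤ s)
    (hu : ∀ (x : V × Z) (v : V), u (mul B x (v, 0)) - u x ≤ s * ‖v‖)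
    (hl : ∀ t : ℝ, u (t • e, 0) = s * t) (w : V) (t : ℝ) :
    u (mul B (w, 0) (t • e, 0)) = s * (t + inner ℝ e w) := by
  have key : ∀ R : ℝ, 4 * |t| + 1 ≤ R →
      |u (mul B (w, 0) (t • e, 0)) - s * (t + inner ℝ e w)| ≤ 16 * s * ‖w‖ ^ 2 / R := by
    intro R hR
    have ht := abs_nonneg t
    have ht1 := le_abs_self t
    have ht2 := neg_abs_le t
    have hR0 : 0 < R := by linarith
    rw [abs_le]
    constructor
    · -- from the point to the line, T = R
      have h := two_steps B e w t R (by linarith)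
      have hpos : 0 < R - t := by linarith
      set β := -(R / 2 + t) / (R - t) with hβ
      have hb : β * (R - t) = -(R / 2 + t) := by rw [hβ]; field_simp
      have hb1 : -1 ≤ β := by
        rw [hβ, le_div_iff₀ hpos]; linarith
      have hb2 : β ≤ 0 := by
        rw [hβ]; apply div_nonpos_of_nonpos_of_nonneg <;> linarith
      set a : V := β • w - (R / 2) • e with ha
      set c : V := (t - R / 2) • e - (β - 1) • w with hc
      have h1 := hu (mul B (w, 0) (t • e, 0)) (-c)
      have h2 := hu (mul B (R • e, 0) (a, 0)) (-a)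
      have e1 : mul B (mul B (w, 0) (t • e, 0)) (-c, 0) = mul B (R • e, 0) (a, 0) := by
        rw [← h, mulA]
        have : mul B (c, (0 : Z)) (-c, 0) = 0 := by
          have := muln_self B (c, (0 : Z))
          simpa using this
        rw [this, mulz]
      have e2 : mul B (mul B (R • e, 0) (a, 0)) (-a, 0) = (R • e, 0) := by
        rw [mulA]
        have : mul B (a, (0 : Z)) (-a, 0) = 0 := by
          have := muln_self B (a, (0 : Z))
          simpa using this
        rw [this, mulz]
      rw [e1] at h1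
      rw [e2, hl] at h2
      have n1 : ‖-a‖ ≤ R / 2 - β * inner ℝ e w + 8 * ‖w‖ ^ 2 / R := by
        have : -a = (R / 2) • e - β • w := by rw [ha]; abel
        rw [this]
        apply norm_sub_le' e w he _ _ R hR0 (by linarith)
        nlinarith
      have n2 : ‖-c‖ ≤ (R / 2 - t) - (1 - β) * inner ℝ e w + 8 * ‖w‖ ^ 2 / R := by
        have : -c = (R / 2 - t) • e - (1 - β) • w := by rw [hc]; module
        rw [this]
        apply norm_sub_le' e w he _ _ R hR0 (by linarith)
        nlinarith
      have m1 := mul_le_mul_of_nonneg_left n1 hs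
      have m2 := mul_le_mul_of_nonneg_left n2 hs
      have : 16 * s * ‖w‖ ^ 2 / R = s * (8 * ‖w‖ ^ 2 / R) + s * (8 * ‖w‖ ^ 2 / R) := by ring
      rw [this]
      linarith
    · have h := two_steps B e w t (-R) (by linarith)
      have hpos : 0 < R + t := by linarith
      set β := -(-R / 2 + t) / (-R - t) with hβ
      have hb : β = -(R / 2 - t) / (R + t) := by
        rw [hβ, div_eq_div_iff (by linarith) (by linarith)]
        ring
      have hb1 : -1 ≤ β := by
        rw [hb, le_div_iff₀ hpos]; linarith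
      have hb2 : β ≤ 0 := by
        rw [hb]; apply div_nonpos_of_nonpos_of_nonneg <;> linarith
      set a : V := β • w - (-R / 2) • e with ha
      set c : V := (t - -R / 2) • e - (β - 1) • w with hc
      have h1 := hu (mul B (-R • e, 0) (a, 0)) c
      have h2 := hu (-R • e, 0) a
      rw [h] at h1
      rw [hl] at h2
      have n1 : ‖a‖ ≤ R / 2 - (-β) * inner ℝ e w + 8 * ‖w‖ ^ 2 / R := by
        have : a = (R / 2) • e - (-β) • w := by rw [ha]; module
        rw [this]
        apply norm_sub_le' e w he _ _ R hR0 (by linarith)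
        nlinarith
      have n2 : ‖c‖ ≤ (R / 2 + t) - (β - 1) * inner ℝ e w + 8 * ‖w‖ ^ 2 / R := by
        have : c = (R / 2 + t) • e - (β - 1) • w := by rw [hc]; module
        rw [this]
        apply norm_sub_le' e w he _ _ R hR0 (by linarith)
        nlinarith
      have m1 := mul_le_mul_of_nonneg_left n1 hs
      have m2 := mul_le_mul_of_nonneg_left n2 hs
      have : 16 * s * ‖w‖ ^ 2 / R = s * (8 * ‖w‖ ^ 2 / R) + s * (8 * ‖w‖ ^ 2 / R) := by ring
      rw [this]
      linarith
  have hlim : Tendsto (fun R : ℝ => 16 * s * ‖w‖ ^ 2 / R) atTop (𝓝 0) :=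
    tendsto_const_nhds.div_atTop tendsto_id
  have h0 : |u (mul B (w, 0) (t • e, 0)) - s * (t + inner ℝ e w)| ≤ 0 := by
    apply ge_of_tendsto hlim
    filter_upwards [eventually_ge_atTop (4 * |t| + 1)] with R hR
    exact key R hR
  have := abs_nonpos_iff.mp h0
  linarith

theorem line : S_word → S_line := by
  intro hw V Z _ _ _ _ B u e s he hu0 hu hl
  have hs : 0 ≤ s := by
    have h := hu (e, 0) (-e)
    have h1 : mul B (e, (0 : Z)) (-e, 0) = 0 := by
      have := muln_self B (e, (0 : Z))
      simpa using this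
    have h2 := hl 1
    rw [one_smul, mul_one] at h2
    rw [h1, hu0, h2, norm_neg, he] at h
    linarith
  have main := hw V Z B (fun x => ∀ u : V × Z → ℝ, u 0 = 0 →
    (∀ (x : V × Z) (v : V), u (mul B x (v, 0)) - u x ≤ s * ‖v‖) →
    (∀ t : ℝ, u (t • e, 0) = s * t) → u x = s * inner ℝ e x.1) ?_ ?_
  · intro x
    exact main x u hu0 hu hl
  · intro u hu0 _ _
    rw [hu0]; simp
  · intro v x hx u hu0 hu hl
    have hv0 : u (v, 0) = s * inner ℝ e v := by
      have := line_one B u e s he hs hu hl v 0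
      rw [zero_smul, zero_add, Prod.mk_zero_zero, mulz] at this
      exact this
    have h := hx (fun y => u (mul B (v, 0) y) - u (v, 0)) ?_ ?_ ?_
    · have e1 : (mul B (v, 0) x).1 = v + x.1 := rfl
      rw [e1, inner_add_right]
      linarith
    · simp
    · intro y z
      have := hu (mul B (v, 0) y) z
      rw [mulA] at this
      linarith
    · intro t
      have := line_one B u e s he hs hu hl v t
      rw [this, hv0]; ring

end Pool.Agent.Q239.CT
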